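import Pool.Agent.X310.Sch

/-!
# `MP_3550b5_nt`: Schneider's conjecture when the order of vanishing is at most the rank plus one

`V` is the localisation of the dual Selmer group `X(A/ℚ_∞) ⊗ ℚ_p` at the augmentation ideal, `N` is
the logarithm of a topological generator of `Γ`, `B` is the symmetric form obtained from the
Cassels-Tate pairing.  If `Ш(A/ℚ)[p^∞]` is finite then `dim ker N = rk A(ℚ)` and the `p`-adic height
pairing is the restriction of `B` to `ker N`.
-/

set_option autoImplicit false

namespace Pool.Agent.Results.MP_3550b5_nt.OrderAtMostRankPlusOne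

open Module Pool.Agent.X310.Sch

theorem result (K V : Type) [Field K] [AddCommGroup V] [Module K V] [FiniteDimensional K V]
    (h2 : (2 : K) ≠ 0) (D : SkewData K V) :
    (∃ m : ℕ, finrank K V = finrank K (LinearMap.ker D.N) + 2 * m) ∧
    finrank K (LinearMap.ker D.N) + finrank K D.radical ≤ finrank K V ∧
    (D.HeightNondegenerate ↔ finrank K V = finrank K (LinearMap.ker D.N)) ∧
    (finrank K V ≤ finrank K (LinearMap.ker D.N) + 1 → D.HeightNondegenerate) :=
  ⟨exists_parity D h2, rank_add_radical_le D, nondeg_iff D, nondeg_of_le D h2⟩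

end Pool.Agent.Results.MP_3550b5_nt.OrderAtMostRankPlusOne
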