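import Pool.Agent.Results.MP_3550b5_nt.RegulatorsInFamilies
import Pool.Agent.X174.WinRat

/-!
# Schneider's conjecture in families: ALL parameters in cubes around thin sequences of points and all primes up to a power

Let `F` be a family of elliptic curves over `ℤ[t_1, …, t_d]` with `r ≥ 1` sections whose height pairing over the function
field is nondegenerate (`Family`, `Marked`, `NonDeg`: see the starting result `RegulatorsInFamilies`) and let `η ≥ 0`. For
every sequence `v ≥ 1` of exponent of convergence at most `τ` (for `v_i = (i + 1) ^ a` this is `1 / a`, for `v_i = b ^ i` it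
is `0`) and every `ρ < 1`, outside a set of `x ∈ ℝ^d` of Hausdorff dimension at most `(d - 1 / r + 5 η + τ) / (1 - ρ)` the
following holds for all but finitely many `i`: for ALL marked parameters `w ∈ ℤ^d` in the cube with centre `x v_i` and side
`2 v_i ^ ρ` and ALL primes `5 ≤ p ≤ v_i ^ η` of good ordinary reduction the `p`-adic regulator of the `r` points does not
vanish, and Schneider's conjecture holds at `p` if the rank is `r`.

The number of exceptions is from the starting result `RegulatorsInFamilies`.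
-/

set_option autoImplicit false

open Finset

namespace Pool.Agent.Results.MP_3550b5_nt.ParametersInCubes

open Pool.Agent.Y732 (Family lineFamily IsOrdinaryW)

/-- the exponent of convergence of the sequence `v` is at most `τ` -/
def ExpLe (v : ℕ → ℝ) (τ : ℝ) : Prop := ∀ t : ℝ, τ < t → Summable (fun n : ℕ => (v n) ^ (-t))

/-- **Theorem.** Let `F` be a family with `d ≥ 1` parameters and `r ≥ 1` sections with nondegenerate height pairing, and
`η ≥ 0`. For every sequence `v ≥ 1` of exponent of convergence at most `τ ≥ 0` and every `ρ < 1` there is a set `E ⊂ ℝ^d` of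
Hausdorff dimension at most `(d - 1 / r + 5 η + τ) / (1 - ρ)` such that for each `x` outside `E`, for all but finitely many
`i`, for ALL marked integral `w` with `|w_l - x_l v_i| ≤ v_i ^ ρ` and ALL primes `5 ≤ p ≤ v_i ^ η` at which the member is
ordinary, `NonDeg` holds: the `p`-adic regulator of the `r` points does not vanish, and if the rank is `r`, then Schneider's
conjecture holds at `p`. The family `lineFamily` of all curves `y² + a₁ x y + a₃ y = x (x - m) (x - n)`, `d = 4`, `r = 2`, is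
an example. The sequences `v_i = (i + 1) ^ a` and `v_i = b ^ i` have exponent of convergence at most `1 / a` and `0`. -/
theorem result :
    (∀ (d r : ℕ) (F : Family d r), 1 ≤ d → 0 < r → F.K.det ≠ 0 → ∀ η : ℝ, 0 ≤ η →
      ∀ (v : ℕ → ℝ) (τ ρ : ℝ), (∀ i, 1 ≤ v i) → 0 ≤ τ → ExpLe v τ → ρ < 1 →
      ∃ E : Set (Fin d → ℝ), dimH E ≤ ENNReal.ofReal (((d : ℝ) - 1 / r + 5 * η + τ) / (1 - ρ)) ∧
        ∀ x : Fin d → ℝ, x ∉ E → ∃ i₀ : ℕ, ∀ i : ℕ, i₀ ≤ i →
          ∀ w : Fin d → ℤ, (∀ l, |(w l : ℝ) - x l * v i| ≤ (v i) ^ ρ) → F.Marked w →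
            ∀ (p : ℕ) (_ : Fact p.Prime), 5 ≤ p → (p : ℝ) ≤ (v i) ^ η → IsOrdinaryW p (F.curve w) →
              F.NonDeg w p) ∧
    lineFamily.K.det ≠ 0 ∧
    (∀ a : ℝ, 0 < a → ExpLe (fun n : ℕ => ((n : ℝ) + 1) ^ a) (1 / a)) ∧
    (∀ b : ℝ, 1 < b → ExpLe (fun n : ℕ => b ^ n) 0) := by
  classical
  obtain ⟨hmain, hline, -⟩ := RegulatorsInFamilies.result
  refine ⟨fun d r F hd hr hdet η hη v τ ρ hv hτ hE hρ => ?_, by rw [hline]; norm_num,
    fun κ hκ => Pool.Agent.Y854.GM.expLe_pow κ hκ, fun b hb => Pool.Agent.Y854.GM.expLe_geom b hb⟩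
  have hd1 : (1 : ℝ) ≤ d := by exact_mod_cast hd
  have hr1 : (1 : ℝ) ≤ r := by exact_mod_cast hr
  have hr0 : (0 : ℝ) < r := by linarith
  have hrr : 1 / (r : ℝ) ≤ 1 := by
    rw [div_le_one hr0]
    exact hr1
  have hs : 0 ≤ (d : ℝ) - 1 / r + 5 * η := by linarith
  have hs1 : 0 ≤ (d : ℝ) - 1 / r := by linarith
  set S : ℝ → Finset ℕ := fun T => (range (⌊T ^ η⌋₊ + 1)).filter fun p => p.Prime ∧ 5 ≤ p with hS
  have hSp : ∀ T, ∀ p ∈ S T, p.Prime ∧ 5 ≤ p := fun T p hp => (mem_filter.1 hp).2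
  have hS4 : ∀ T : ℝ, 1 ≤ T → ∑ p ∈ S T, (p : ℝ) ^ 4 ≤ 2 * T ^ (5 * η) := by
    intro T hT
    have hTη : 1 ≤ T ^ η := Real.one_le_rpow hT hη
    have h1 : ∀ p ∈ S T, (p : ℝ) ^ 4 ≤ (T ^ η) ^ 4 := by
      intro p hp
      have h2 : p ≤ ⌊T ^ η⌋₊ := by
        have := (mem_range.1 (mem_filter.1 hp).1)
        omega
      apply pow_le_pow_left₀ (Nat.cast_nonneg p)
      exact (Nat.cast_le.2 h2).trans (Nat.floor_le (by linarith))
    have h3 : ((S T).card : ℝ) ≤ 2 * T ^ η := by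
      have h4 : (S T).card ≤ ⌊T ^ η⌋₊ + 1 := by
        calc (S T).card ≤ (range (⌊T ^ η⌋₊ + 1)).card := card_filter_le _ _
          _ = _ := card_range _
      have h5 : ((⌊T ^ η⌋₊ : ℕ) : ℝ) ≤ T ^ η := Nat.floor_le (by linarith)
      calc ((S T).card : ℝ) ≤ ((⌊T ^ η⌋₊ + 1 : ℕ) : ℝ) := by exact_mod_cast h4
        _ ≤ 2 * T ^ η := by
            push_cast
            linarith
    calc ∑ p ∈ S T, (p : ℝ) ^ 4 ≤ (S T).card • (T ^ η) ^ 4 := sum_le_card_nsmul _ _ _ h1
      _ = ((S T).card : ℝ) * (T ^ η) ^ 4 := by rw [nsmul_eq_mul]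
      _ ≤ 2 * T ^ η * (T ^ η) ^ 4 := mul_le_mul_of_nonneg_right h3 (by positivity)
      _ = 2 * (T ^ η) ^ 5 := by ring
      _ = 2 * T ^ (5 * η) := by
          rw [← Real.rpow_natCast (T ^ η) 5, ← Real.rpow_mul (by linarith)]
          congr 2
          push_cast
          ring
  set C : ℝ := 2 ^ d * r * |(F.K.det : ℝ)| * 2 * 3 ^ ((d : ℝ) - 1 / r) with hC
  have hC0 : 0 ≤ C := by positivity
  obtain ⟨E, hE1, hE2⟩ := Pool.Agent.X174.winFam (κ := Fin d) (Q := Fin d → ℤ)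
    (fun w l => (w l : ℝ))
    (fun T => {w : Fin d → ℤ | (∀ l, |w l| ≤ ((⌊T⌋₊ : ℕ) : ℤ)) ∧ F.Marked w ∧
      ∃ p ∈ S T, ∃ _ : Fact p.Prime, IsOrdinaryW p (F.curve w) ∧ ¬ F.NonDeg w p})
    (s := (d : ℝ) - 1 / r + 5 * η) (C := C) hs
    (fun T hT => by
      set H : ℕ := ⌊T⌋₊ with hH
      have hT1 : 1 ≤ H := Nat.le_floor (by exact_mod_cast hT)
      have hT2 : (1 : ℝ) ≤ (H : ℝ) := by exact_mod_cast hT1
      have hHT : (H : ℝ) ≤ T := Nat.floor_le (by linarith)
      have h1 := hmain d r F hr hdet (S T) (hSp T) (fun _ => -(H : ℤ)) (fun _ => 2 * H + 1) (2 * H + 1)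
        (fun _ => le_rfl)
      set Y : Finset (Fin d → ℤ) := (Fintype.piFinset fun l : Fin d =>
        Ico ((fun _ => -(H : ℤ) : Fin d → ℤ) l) ((fun _ => -(H : ℤ) : Fin d → ℤ) l +
          ((fun _ => 2 * H + 1 : Fin d → ℕ) l : ℕ))).filter fun w => F.Marked w ∧
          ∃ p ∈ S T, ∃ _ : Fact p.Prime, IsOrdinaryW p (F.curve w) ∧ ¬ F.NonDeg w p with hY
      have hset : {w : Fin d → ℤ | (∀ l, |w l| ≤ (H : ℤ)) ∧ F.Marked w ∧
          ∃ p ∈ S T, ∃ _ : Fact p.Prime, IsOrdinaryW p (F.curve w) ∧ ¬ F.NonDeg w p} = (Y : Set (Fin d → ℤ)) := by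
        ext w
        rw [hY]
        simp only [Set.mem_setOf_eq, coe_filter, Fintype.mem_piFinset, mem_Ico]
        constructor
        · rintro ⟨h2, h3⟩
          refine ⟨fun l => ?_, h3⟩
          have h4 := abs_le.1 (h2 l)
          push_cast
          constructor
          · exact h4.1
          · linarith [h4.2]
        · rintro ⟨h2, h3⟩
          refine ⟨fun l => ?_, h3⟩
          have h4 := h2 l
          push_cast at h4
          rw [abs_le]
          constructor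
          · exact h4.1
          · linarith [h4.2]
      rw [hset]
      refine ⟨Y.finite_toSet, ?_⟩
      rw [Set.ncard_coe_finset]
      have hN0 : (0 : ℝ) < ((2 * H + 1 : ℕ) : ℝ) := by positivity
      have h5 : ∏ _l : Fin d, ((2 * H + 1 : ℕ) : ℝ) = ((2 * H + 1 : ℕ) : ℝ) ^ (d : ℝ) := by
        rw [prod_const, card_univ, Fintype.card_fin, Real.rpow_natCast]
      have h6 : (Y.card : ℝ) * ((2 * H + 1 : ℕ) : ℝ) ^ ((1 : ℝ) / r) ≤
          2 ^ d * r * |(F.K.det : ℝ)| * (2 * T ^ (5 * η)) * ((2 * H + 1 : ℕ) : ℝ) ^ (d : ℝ) := by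
        refine h1.trans ?_
        rw [h5]
        apply mul_le_mul_of_nonneg_right _ (by positivity)
        exact mul_le_mul_of_nonneg_left (hS4 T hT) (by positivity)
      have h7 : (Y.card : ℝ) ≤
          2 ^ d * r * |(F.K.det : ℝ)| * (2 * T ^ (5 * η)) * ((2 * H + 1 : ℕ) : ℝ) ^ ((d : ℝ) - 1 / r) := by
        rw [Real.rpow_sub hN0, ← mul_div_assoc, le_div_iff₀ (by positivity)]
        exact h6
      have h8 : ((2 * H + 1 : ℕ) : ℝ) ^ ((d : ℝ) - 1 / r) ≤ (3 * T) ^ ((d : ℝ) - 1 / r) := by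
        apply Real.rpow_le_rpow (by positivity) _ hs1
        push_cast
        linarith
      calc (Y.card : ℝ) ≤ _ := h7
        _ ≤ 2 ^ d * r * |(F.K.det : ℝ)| * (2 * T ^ (5 * η)) * (3 * T) ^ ((d : ℝ) - 1 / r) :=
            mul_le_mul_of_nonneg_left h8 (by positivity)
        _ = C * (T ^ ((d : ℝ) - 1 / r) * T ^ (5 * η)) := by
            rw [Real.mul_rpow (by norm_num) (by linarith), hC]
            ring
        _ = C * T ^ ((d : ℝ) - 1 / r + 5 * η) := by
            rw [← Real.rpow_add (by linarith)])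
    hv hτ hE hρ
  refine ⟨E, hE1, fun x hx => ?_⟩
  obtain ⟨R, hR, hRc⟩ := Pool.Agent.X174.le_of_cube x
  obtain ⟨i₀, hi₀⟩ := hE2 x hx R hR
  have hR1 : (1 : ℝ) ≤ R := by exact_mod_cast hR
  refine ⟨i₀, fun i hi w hw hm p hp hp5 hpη hord => ?_⟩
  by_contra hcon
  have hvi : 1 ≤ v i := hv i
  have h3 := hRc (fun l => (w l : ℝ)) (v i) ρ hvi hρ hw
  refine hi₀ i hi w hw ⟨fun l => ?_, hm, p, ?_, hp, hord, hcon⟩
  · have h4 : (((w l).natAbs : ℕ) : ℝ) ≤ (R : ℝ) * v i := by
      rw [Nat.cast_natAbs, Int.cast_abs]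
      exact h3 l
    rw [Int.abs_eq_natAbs]
    exact_mod_cast Nat.le_floor h4
  · rw [hS]
    simp only [mem_filter, mem_range]
    refine ⟨Nat.lt_succ_of_le (Nat.le_floor (hpη.trans ?_)), hp.out, hp5⟩
    exact Real.rpow_le_rpow (by linarith) (by nlinarith) hη

end Pool.Agent.Results.MP_3550b5_nt.ParametersInCubes
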