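import Pool.Agent.Results.MP_3550b5_nt.RegulatorsInFamilies
import Pool.Agent.X123.ML.Vec

/-!
# Schneider's conjecture for the members of a family at ALL good approximations to almost every real parameter

Let `F` be a family of elliptic curves over `ℤ[t_1, …, t_d]` with `r` sections whose height pairing over the function field is
nondegenerate, and `0 ≤ 5 η < 1 / r`. For almost every real vector `z` (of the ratios of the parameters), for ALL but finitely many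
integral parameters `v` with `|z_q - v_q / v_{q₀}| ≤ c |v| ^ (-d/(d-1))` (by Dirichlet's theorem there are infinitely many of them)
at which the member is marked, and for ALL ordinary primes `5 ≤ p ≤ |v| ^ η`, the `p`-adic regulator of the `r` points is nonzero.
More generally this holds for the parameters near the points of any metric space outside a set of small dimension.
-/

set_option autoImplicit false

open scoped ENNReal

namespace Pool.Agent.Results.MP_3550b5_nt.RegulatorsNearTargets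

open MeasureTheory Pool.Agent.X123.ML Pool.Agent.Y732 Finset

/-- the member of the family at `v` is marked, and for some ordinary prime `5 ≤ p ≤ |v| ^ η` the `p`-adic regulator of the sections
vanishes at `v`, or Schneider's conjecture at `p` fails although the rank is `r` -/
def Bad {d r : ℕ} (F : Family d r) (η : ℝ) (v : Fin d → ℤ) : Prop :=
  F.Marked v ∧ ∃ p : ℕ, p.Prime ∧ 5 ≤ p ∧ (p : ℝ) ≤ ‖v‖ ^ η ∧
    ∃ _ : Fact p.Prime, IsOrdinaryW p (F.curve v) ∧ ¬ F.NonDeg v p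

open Classical in
lemma count {d r : ℕ} (F : Family d r) (hr : 0 < r) (hK : F.K.det ≠ 0) (η : ℝ)
    (hη : 0 ≤ η) (R : ℕ) (hR : 1 ≤ R) :
    (Nat.card {v : Fin d → ℤ // (∀ i, |v i| ≤ (R : ℤ)) ∧ v ∈ {v : Fin d → ℤ | Bad F η v}} : ℝ) ≤
      (2 ^ d * r * |(F.K.det : ℝ)|) * (2 * R + 1 : ℝ) ^ ((d : ℝ) - 1 / r + 5 * η) := by
  obtain ⟨S, hS⟩ : ∃ S : Finset ℕ, S = (Finset.Icc 5 ⌊(R : ℝ) ^ η⌋₊).filter Nat.Prime := ⟨_, rfl⟩
  have hR1 : (1 : ℝ) ≤ R := by exact_mod_cast hR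
  have hN : (0 : ℝ) < 2 * R + 1 := by positivity
  have hSp : ∀ p ∈ S, p.Prime ∧ 5 ≤ p := by
    intro p hp
    rw [hS, Finset.mem_filter, Finset.mem_Icc] at hp
    exact ⟨hp.2, hp.1.1⟩
  have h1 := RegulatorsInFamilies.result.1 d r F hr hK S hSp (fun _ => -(R : ℤ)) (fun _ => 2 * R + 1)
    (2 * R + 1) (fun _ => le_rfl)
  have h2 : (Nat.card {v : Fin d → ℤ // (∀ i, |v i| ≤ (R : ℤ)) ∧ v ∈ {v : Fin d → ℤ | Bad F η v}} : ℝ) ≤
      (((Fintype.piFinset fun _ : Fin d => Ico (-(R : ℤ)) (-(R : ℤ) + (2 * R + 1 : ℕ))).filter fun v =>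
        F.Marked v ∧ ∃ p ∈ S, ∃ _ : Fact p.Prime, IsOrdinaryW p (F.curve v) ∧ ¬ F.NonDeg v p).card : ℝ) := by
    have h3 : {v : Fin d → ℤ | (∀ i, |v i| ≤ (R : ℤ)) ∧ v ∈ {v : Fin d → ℤ | Bad F η v}} ⊆
        (((Fintype.piFinset fun _ : Fin d => Ico (-(R : ℤ)) (-(R : ℤ) + (2 * R + 1 : ℕ))).filter fun v =>
        F.Marked v ∧ ∃ p ∈ S, ∃ _ : Fact p.Prime, IsOrdinaryW p (F.curve v) ∧ ¬ F.NonDeg v p :
          Finset (Fin d → ℤ)) : Set (Fin d → ℤ)) := by
      rintro v ⟨hv, hm, p, hp, hp5, hpR, hF, ho, hnd⟩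
      rw [Finset.mem_coe, Finset.mem_filter, Fintype.mem_piFinset]
      refine ⟨fun i => ?_, hm, p, ?_, hF, ho, hnd⟩
      · rw [Finset.mem_Ico]
        have h4 := abs_le.1 (hv i)
        push_cast
        constructor <;> linarith [h4.1, h4.2]
      · rw [hS, Finset.mem_filter, Finset.mem_Icc]
        refine ⟨⟨hp5, Nat.le_floor (hpR.trans ?_)⟩, hp⟩
        exact Real.rpow_le_rpow (norm_nonneg _) ((vec_norm_le v R).2 hv) hη
    have h4 := Set.ncard_le_ncard h3 (Finset.finite_toSet _)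
    rw [Set.ncard_coe_finset] at h4
    exact_mod_cast h4
  refine h2.trans ?_
  have h3 : ∑ p ∈ S, (p : ℝ) ^ 4 ≤ (2 * R + 1 : ℝ) ^ (5 * η) := by
    have hx : (0 : ℝ) ≤ (R : ℝ) ^ η := by positivity
    have h4 : ∑ p ∈ S, (p : ℝ) ^ 4 ≤ (S.card : ℝ) * ((R : ℝ) ^ η) ^ 4 := by
      rw [← nsmul_eq_mul]
      refine Finset.sum_le_card_nsmul _ _ _ fun p hp => ?_
      rw [hS, Finset.mem_filter, Finset.mem_Icc] at hp
      exact pow_le_pow_left₀ (Nat.cast_nonneg _) ((Nat.le_floor_iff hx).1 hp.1.2) 4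
    have h5 : (S.card : ℝ) ≤ (R : ℝ) ^ η := by
      have h6 : S.card ≤ ⌊(R : ℝ) ^ η⌋₊ := by
        rw [hS]
        refine (Finset.card_filter_le _ _).trans ?_
        rw [Nat.card_Icc]
        omega
      exact (Nat.le_floor_iff hx).1 h6
    have h6 : (S.card : ℝ) * ((R : ℝ) ^ η) ^ 4 ≤ ((R : ℝ) ^ η) ^ 5 := by
      calc (S.card : ℝ) * ((R : ℝ) ^ η) ^ 4 ≤ (R : ℝ) ^ η * ((R : ℝ) ^ η) ^ 4 :=
            mul_le_mul_of_nonneg_right h5 (by positivity)
        _ = _ := by ring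
    refine (h4.trans h6).trans ?_
    rw [← Real.rpow_natCast, ← Real.rpow_mul (by linarith)]
    have h7 : (η * ((5 : ℕ) : ℝ)) = 5 * η := by push_cast; ring
    rw [h7]
    exact Real.rpow_le_rpow (by linarith) (by linarith) (by positivity)
  have h8 : ∏ _l : Fin d, (((2 * R + 1 : ℕ) : ℝ)) = (2 * R + 1 : ℝ) ^ d := by
    rw [Finset.prod_const, Finset.card_univ, Fintype.card_fin]
    push_cast
    rfl
  rw [h8] at h1
  have h9 : ((2 * R + 1 : ℕ) : ℝ) = 2 * R + 1 := by push_cast; ring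
  rw [h9] at h1
  have h10 : (0 : ℝ) < (2 * R + 1 : ℝ) ^ ((1 : ℝ) / r) := by positivity
  rw [← le_div_iff₀ h10] at h1
  refine h1.trans ?_
  rw [div_le_iff₀ h10]
  have h11 : (2 * R + 1 : ℝ) ^ ((d : ℝ) - 1 / r + 5 * η) * (2 * R + 1 : ℝ) ^ ((1 : ℝ) / r) =
      (2 * R + 1 : ℝ) ^ (5 * η) * (2 * R + 1 : ℝ) ^ d := by
    rw [← Real.rpow_add hN, ← Real.rpow_natCast _ d, ← Real.rpow_add hN]
    congr 1
    ring
  have h12 : (0 : ℝ) ≤ 2 ^ d * r * |(F.K.det : ℝ)| := by positivity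
  calc 2 ^ d * (r : ℝ) * |(F.K.det : ℝ)| * (∑ p ∈ S, (p : ℝ) ^ 4) * (2 * R + 1 : ℝ) ^ d
      ≤ 2 ^ d * (r : ℝ) * |(F.K.det : ℝ)| * (2 * R + 1 : ℝ) ^ (5 * η) * (2 * R + 1 : ℝ) ^ d :=
        mul_le_mul_of_nonneg_right (mul_le_mul_of_nonneg_left h3 h12) (by positivity)
    _ = (2 ^ d * r * |(F.K.det : ℝ)|) *
        ((2 * R + 1 : ℝ) ^ (5 * η) * (2 * R + 1 : ℝ) ^ d) := by ring
    _ = _ := by rw [← h11]; ring

/-- **Theorem.** Let `F` be a family of elliptic curves over `ℤ[t_1, …, t_d]`, `d ≥ 1`, with `r ≥ 1` sections whose height pairing over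
the function field is nondegenerate, and `η ≥ 0`. (1) For every map `s` from `ℤ^d` to a metric space and every `τ > 0` there is a set
`E` of Hausdorff dimension at most `(d - 1 / r + 5 η) / τ` such that for each `z` outside `E`, for ALL but finitely many `v ∈ ℤ^d` with
`dist(z, s(v)) ≤ |v| ^ (-τ)` at which the member is marked and ALL ordinary primes `5 ≤ p ≤ |v| ^ η`, the `p`-adic regulator of the
sections is nonzero (and Schneider's conjecture holds at `p` if the rank is `r`). (2) If `d ≥ 2` and `5 η < 1 / r`, then for every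
index `q₀`, almost all real `z = (z_q)_{q ≠ q₀}` and all `c` the same is true for ALL but finitely many `v` with
`|z_q - v_q / v_{q₀}| ≤ c |v| ^ (-d/(d-1))` for all `q ≠ q₀`. (3) The family of all curves `y² + a₁ x y + a₃ y = x (x - m) (x - n)`,
`d = 4`, `r = 2`, is such a family. -/
theorem result :
    (∀ (d r : ℕ) (F : Family d r), 1 ≤ d → 0 < r → F.K.det ≠ 0 → ∀ η : ℝ, 0 ≤ η →
      (∀ (M : Type) [MetricSpace M] (s : (Fin d → ℤ) → M) (τ : ℝ), 0 < τ →
        ∃ E : Set M, dimH E ≤ ENNReal.ofReal (((d : ℝ) - 1 / r + 5 * η) / τ) ∧ ∀ z : M, z ∉ E →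
          {v : Fin d → ℤ | dist z (s v) ≤ ‖v‖ ^ (-τ) ∧ Bad F η v}.Finite) ∧
      (2 ≤ d → 5 * η < 1 / r → ∀ q₀ : Fin d, ∀ᵐ z : {q : Fin d // q ≠ q₀} → ℝ, ∀ c : ℝ,
        {v : Fin d → ℤ | (∀ q : {q : Fin d // q ≠ q₀}, |z q - (v q : ℝ) / (v q₀ : ℝ)| ≤
          c * ‖v‖ ^ (-((d : ℝ) / ((d : ℝ) - 1)))) ∧ Bad F η v}.Finite)) ∧
    lineFamily.K.det ≠ 0 := by
  refine ⟨fun d r F hd hr hK η hη => ?_, by rw [RegulatorsInFamilies.result.2.1]; norm_num⟩
  have hd1 : (1 : ℝ) ≤ d := by exact_mod_cast hd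
  have hr1 : (1 : ℝ) ≤ r := by exact_mod_cast hr
  have hr2 : 1 / (r : ℝ) ≤ 1 := by
    rw [div_le_one (by linarith)]
    exact hr1
  have he : (0 : ℝ) ≤ (d : ℝ) - 1 / r + 5 * η := by linarith
  refine ⟨fun M _ s τ hτ => ?_, fun hd2 hη2 q₀ => ?_⟩
  · obtain ⟨E, hE, hE2⟩ := near (I := Unit) (fun _ => {v : Fin d → ℤ | Bad F η v})
      (fun v => ‖v‖) he hτ
      (fun _ => vec_count _ he (R₀ := 1) (fun R _ hR1 => count F hr hK η hη R hR1)) s
    exact ⟨E, hE, fun z hz => (hE2 z hz ()).subset fun v hv => ⟨hv.2, hv.1⟩⟩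
  · have h3 := ratios_ae q₀ (by rw [Fintype.card_fin]; exact hd2) {v : Fin d → ℤ | Bad F η v}
      (by linarith : 0 < 1 / (r : ℝ) - 5 * η) (by linarith) (R₀ := 1)
      (C := 2 ^ d * r * |(F.K.det : ℝ)|) (by
        rw [Fintype.card_fin]
        intro R _ hR1
        refine (count F hr hK η hη R hR1).trans (le_of_eq ?_)
        congr 2
        ring)
    rw [Fintype.card_fin] at h3
    filter_upwards [h3] with z hz c
    exact (hz c).subset fun v hv => ⟨hv.2, hv.1⟩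

end Pool.Agent.Results.MP_3550b5_nt.RegulatorsNearTargets
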