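import Pool.Agent.Results.MP_3550b5_nt.RegulatorsInFamilies
import Pool.Agent.X67.LF.Main

/-!
# Schneider's conjecture in families: ALL parameters at the small values of generic linear forms

Let `F` be a family of elliptic curves over `ℤ[t_1, …, t_d]` with `r ≥ 1` sections whose height pairing over the function
field is nondegenerate (`Family`, `Marked`, `NonDeg`: see the starting result `RegulatorsInFamilies`) and let `η ≥ 0`,
`s = d - 1 / r + 5 η`. Let `θ, y ∈ ℝ ^ m`, `θ_i ≥ 0`, `θ_1 + ... + θ_m > s`. For almost all systems `A_1, …, A_m` of linear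
forms in `d` variables, for ALL but finitely many marked parameters `w ∈ ℤ^d` such that `A_i w` is within `|w| ^ (-θ_i)` of
`y_i` modulo `1` for all `i`, and ALL primes `5 ≤ p ≤ |w| ^ η` of good ordinary reduction, the `p`-adic regulator of the
`r` points does not vanish, and Schneider's conjecture holds at `p` if the rank is `r`.

For `5 η < 1 / r` this is not empty: by Dirichlet's theorem every system of forms has infinitely many such `w` for
`θ_i = d / m`. The number of exceptions is from the starting result `RegulatorsInFamilies`.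
-/

set_option autoImplicit false

open Finset

namespace Pool.Agent.Results.MP_3550b5_nt.SmallLinearForms

open Pool.Agent.Y732 (Family lineFamily IsOrdinaryW)
open Pool.Agent.X67.LF (size natAbs_le finite_size Sparse GoodAtSmallValues good_of_sparse)

/-- for ALL primes `5 ≤ p ≤ |w| ^ η` at which the member at `w` is ordinary `NonDeg` holds, if `w` is marked -/
def GoodParameter {d r : ℕ} (F : Family d r) (η : ℝ) (w : Fin d → ℤ) : Prop :=
  F.Marked w → ∀ (p : ℕ) (_ : Fact p.Prime), 5 ≤ p → (p : ℝ) ≤ (size w : ℝ) ^ η → IsOrdinaryW p (F.curve w) →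
    F.NonDeg w p

/-- **Theorem.** Let `F` be a family with `d ≥ 1` parameters and `r ≥ 1` sections with nondegenerate height pairing, and
`η ≥ 0`. The property `GoodParameter F η` of integral vectors `w` holds at the small values of generic linear forms, with
the exponent `d - 1 / r + 5 η`: if `w` is marked, then for ALL primes `5 ≤ p ≤ |w| ^ η` at which the member is ordinary,
the `p`-adic regulator of the `r` points does not vanish, and if the rank is `r`, then Schneider's conjecture holds at `p`.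
The family `lineFamily` of all curves `y² + a₁ x y + a₃ y = x (x - m) (x - n)`, `d = 4`, `r = 2`, is an example. -/
theorem result :
    (∀ (d r : ℕ) (F : Family d r), 1 ≤ d → 0 < r → F.K.det ≠ 0 → ∀ η : ℝ, 0 ≤ η →
      GoodAtSmallValues (GoodParameter F η) ((d : ℝ) - 1 / r + 5 * η)) ∧
    lineFamily.K.det ≠ 0 := by
  classical
  obtain ⟨hmain, hline, -⟩ := RegulatorsInFamilies.result
  refine ⟨fun d r F hd hr hdet η hη => ?_, by rw [hline]; norm_num⟩
  have hd1 : (1 : ℝ) ≤ d := by exact_mod_cast hd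
  have hr1 : (1 : ℝ) ≤ r := by exact_mod_cast hr
  have hr0 : (0 : ℝ) < r := by linarith
  have hrr : 1 / (r : ℝ) ≤ 1 := by
    rw [div_le_one hr0]
    exact hr1
  have hs : 0 ≤ (d : ℝ) - 1 / r + 5 * η := by linarith
  have hs1 : 0 ≤ (d : ℝ) - 1 / r := by linarith
  set S : ℝ → Finset ℕ := fun T => (range (⌊T ^ η⌋₊ + 1)).filter fun p => p.Prime ∧ 5 ≤ p with hS
  have hSp : ∀ T, ∀ p ∈ S T, p.Prime ∧ 5 ≤ p := fun T p hp => (mem_filter.1 hp).2
  have hS4 : ∀ T : ℝ, 1 ≤ T → ∑ p ∈ S T, (p : ℝ) ^ 4 ≤ 2 * T ^ (5 * η) := by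
    intro T hT
    have hTη : 1 ≤ T ^ η := Real.one_le_rpow hT hη
    have h1 : ∀ p ∈ S T, (p : ℝ) ^ 4 ≤ (T ^ η) ^ 4 := by
      intro p hp
      have h2 : p ≤ ⌊T ^ η⌋₊ := by
        have := (mem_range.1 (mem_filter.1 hp).1)
        omega
      apply pow_le_pow_left₀ (Nat.cast_nonneg p)
      exact (Nat.cast_le.2 h2).trans (Nat.floor_le (by linarith))
    have h3 : ((S T).card : ℝ) ≤ 2 * T ^ η := by
      have h4 : (S T).card ≤ ⌊T ^ η⌋₊ + 1 := by
        calc (S T).card ≤ (range (⌊T ^ η⌋₊ + 1)).card := card_filter_le _ _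
          _ = _ := card_range _
      have h5 : ((⌊T ^ η⌋₊ : ℕ) : ℝ) ≤ T ^ η := Nat.floor_le (by linarith)
      calc ((S T).card : ℝ) ≤ ((⌊T ^ η⌋₊ + 1 : ℕ) : ℝ) := by exact_mod_cast h4
        _ ≤ 2 * T ^ η := by
            push_cast
            linarith
    calc ∑ p ∈ S T, (p : ℝ) ^ 4 ≤ (S T).card • (T ^ η) ^ 4 := sum_le_card_nsmul _ _ _ h1
      _ = ((S T).card : ℝ) * (T ^ η) ^ 4 := by rw [nsmul_eq_mul]
      _ ≤ 2 * T ^ η * (T ^ η) ^ 4 := mul_le_mul_of_nonneg_right h3 (by positivity)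
      _ = 2 * (T ^ η) ^ 5 := by ring
      _ = 2 * T ^ (5 * η) := by
          rw [← Real.rpow_natCast (T ^ η) 5, ← Real.rpow_mul (by linarith)]
          congr 2
          push_cast
          ring
  set C : ℝ := 2 ^ d * r * |(F.K.det : ℝ)| * 2 * 3 ^ ((d : ℝ) - 1 / r) with hC
  have hC0 : 0 ≤ C := by positivity
  refine good_of_sparse _ hs fun ε hε => ⟨C, fun H hH => ?_⟩
  set T : ℝ := (H : ℝ) with hT'
  have hT : 1 ≤ T := Nat.one_le_cast.2 hH
  have hT2 : (1 : ℝ) ≤ (H : ℝ) := hT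
  have hHT : (H : ℝ) ≤ T := le_rfl
  have h1 := hmain d r F hr hdet (S T) (hSp T) (fun _ => -(H : ℤ)) (fun _ => 2 * H + 1) (2 * H + 1)
    (fun _ => le_rfl)
  set Y : Finset (Fin d → ℤ) := (Fintype.piFinset fun l : Fin d =>
    Ico ((fun _ => -(H : ℤ) : Fin d → ℤ) l) ((fun _ => -(H : ℤ) : Fin d → ℤ) l +
      ((fun _ => 2 * H + 1 : Fin d → ℕ) l : ℕ))).filter fun w => F.Marked w ∧
      ∃ p ∈ S T, ∃ _ : Fact p.Prime, IsOrdinaryW p (F.curve w) ∧ ¬ F.NonDeg w p with hY
  have hsub : {w | w ∈ {w | ¬ GoodParameter F η w} ∧ size w ≤ H} ⊆ (Y : Set (Fin d → ℤ)) := by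
    rintro w ⟨hw, hwH⟩
    unfold GoodParameter at hw
    simp only [Set.mem_setOf_eq, not_forall] at hw
    obtain ⟨hm, p, hp, hp5, hpη, hord, hnd⟩ := hw
    rw [hY]
    simp only [coe_filter, Fintype.mem_piFinset, mem_Ico, Set.mem_setOf_eq]
    refine ⟨fun l => ?_, hm, p, ?_, hp, hord, hnd⟩
    · have h4 := (natAbs_le w l).trans hwH
      push_cast
      omega
    · rw [hS]
      simp only [mem_filter, mem_range]
      refine ⟨Nat.lt_succ_of_le (Nat.le_floor (hpη.trans ?_)), hp.out, hp5⟩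
      exact Real.rpow_le_rpow (Nat.cast_nonneg _) (Nat.cast_le.2 hwH) hη
  have h2 := Set.ncard_le_ncard hsub Y.finite_toSet
  rw [Set.ncard_coe_finset] at h2
  have hN0 : (0 : ℝ) < ((2 * H + 1 : ℕ) : ℝ) := by positivity
  have h5 : ∏ _l : Fin d, ((2 * H + 1 : ℕ) : ℝ) = ((2 * H + 1 : ℕ) : ℝ) ^ (d : ℝ) := by
    rw [prod_const, card_univ, Fintype.card_fin, Real.rpow_natCast]
  have h6 : (Y.card : ℝ) * ((2 * H + 1 : ℕ) : ℝ) ^ ((1 : ℝ) / r) ≤
      2 ^ d * r * |(F.K.det : ℝ)| * (2 * T ^ (5 * η)) * ((2 * H + 1 : ℕ) : ℝ) ^ (d : ℝ) := by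
    refine h1.trans ?_
    rw [h5]
    apply mul_le_mul_of_nonneg_right _ (by positivity)
    exact mul_le_mul_of_nonneg_left (hS4 T hT) (by positivity)
  have h7 : (Y.card : ℝ) ≤
      2 ^ d * r * |(F.K.det : ℝ)| * (2 * T ^ (5 * η)) * ((2 * H + 1 : ℕ) : ℝ) ^ ((d : ℝ) - 1 / r) := by
    rw [Real.rpow_sub hN0, ← mul_div_assoc, le_div_iff₀ (by positivity)]
    exact h6
  have h8 : ((2 * H + 1 : ℕ) : ℝ) ^ ((d : ℝ) - 1 / r) ≤ (3 * T) ^ ((d : ℝ) - 1 / r) := by
    apply Real.rpow_le_rpow (by positivity) _ hs1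
    push_cast
    linarith
  calc ({w | w ∈ {w | ¬ GoodParameter F η w} ∧ size w ≤ H}.ncard : ℝ) ≤ (Y.card : ℝ) := by exact_mod_cast h2
    _ ≤ _ := h7
    _ ≤ 2 ^ d * r * |(F.K.det : ℝ)| * (2 * T ^ (5 * η)) * (3 * T) ^ ((d : ℝ) - 1 / r) :=
        mul_le_mul_of_nonneg_left h8 (by positivity)
    _ = C * (T ^ ((d : ℝ) - 1 / r) * T ^ (5 * η)) := by
        rw [Real.mul_rpow (by norm_num) (by linarith), hC]
        ring
    _ = C * T ^ ((d : ℝ) - 1 / r + 5 * η) := by
        rw [← Real.rpow_add (by linarith)]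
    _ ≤ C * T ^ ((d : ℝ) - 1 / r + 5 * η + ε) :=
        mul_le_mul_of_nonneg_left (Real.rpow_le_rpow_of_exponent_le hT (by linarith)) hC0

end Pool.Agent.Results.MP_3550b5_nt.SmallLinearForms
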